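import Pool.Agent.Helper15.DAF.Defs2

/-!
# Traces of global functions on affine étale schemes over D-affine varieties: definitions
-/

open AlgebraicGeometry CategoryTheory TopologicalSpace Opposite

namespace Pool.Agent.Helper15.DAK

open Pool.Agent.Helper15.DAF

/-- `d` is a derivation of the field `F` over `ℂ`. -/
def IsDer {F : Type} [Field F] [Algebra ℂ F] (d : Module.End ℂ F) : Prop :=
  ∀ a b : F, d (a * b) = a * d b + b * d a

variable {X : Scheme.{0}} [IsIntegral X]

/-- Multiplication of `L` by elements of the function field preserves... `R V` is an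
`O(V)`-submodule of `L`. -/
def IsMod (s : X ⟶ Spec (CommRingCat.of ℂ)) (L : Type) [Field L] [Algebra (FF s) L]
    (R : Aff X → AddSubgroup L) : Prop :=
  ∀ (V : Aff X), ∀ a ∈ O s V, ∀ r ∈ R V, algebraMap (FF s) L a * r ∈ R V

/-- Sections on `V` are sections on `W` for `W ⊆ V`. -/
def IsMono {L : Type} [Field L] (R : Aff X → AddSubgroup L) : Prop :=
  ∀ V W : Aff X, W.U ≤ V.U → R V ≤ R W

/-- Quasi-coherence: a section on `W = D(f)` times a power of `f` is a section on `V`. -/
def IsLocal (s : X ⟶ Spec (CommRingCat.of ℂ)) (L : Type) [Field L] [Algebra (FF s) L]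
    (R : Aff X → AddSubgroup L) : Prop :=
  ∀ (V W : Aff X) (f : FF s), IsBasic V W (mulF f) → ∀ r ∈ R W,
    ∃ n : ℕ, algebraMap (FF s) L f ^ n * r ∈ R V

/-- The derivation `d` of `L` extends a vector field on `V`. -/
def Extends (s : X ⟶ Spec (CommRingCat.of ℂ)) {L : Type} [Field L] [Algebra ℂ L]
    [Algebra (FF s) L] (V : Aff X) (d : Module.End ℂ L) : Prop :=
  IsDer d ∧ ∃ d0 ∈ Der (O s V), ∀ a : FF s, d (algebraMap (FF s) L a) = algebraMap (FF s) L (d0 a)

/-- `R` is stable under the vector fields on `X` (extended to `L`). -/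
def IsStable (s : X ⟶ Spec (CommRingCat.of ℂ)) (L : Type) [Field L] [Algebra ℂ L]
    [Algebra (FF s) L] (R : Aff X → AddSubgroup L) : Prop :=
  ∀ (V : Aff X) (d : Module.End ℂ L), Extends s V d → ∀ r ∈ R V, d r ∈ R V

/-- `R` is a quasi-coherent `O_X`-submodule of `L` stable under vector fields. -/
def IsDSub (s : X ⟶ Spec (CommRingCat.of ℂ)) (L : Type) [Field L] [Algebra ℂ L]
    [Algebra (FF s) L] (R : Aff X → AddSubgroup L) : Prop :=
  IsMod s L R ∧ IsMono R ∧ IsLocal s L R ∧ IsStable s L R

/-- `a` is locally a trace of sections of `R`: a global section of the trace sheaf. -/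
def IsTrace (s : X ⟶ Spec (CommRingCat.of ℂ)) {L : Type} [Field L] [Algebra (FF s) L]
    (R : Aff X → AddSubgroup L) (a : FF s) : Prop :=
  ∀ V : Aff X, ∃ r ∈ R V, Algebra.trace (FF s) L r = a

/-- The global sections of the trace sheaf contain an algebra `G` with fraction field `C(X)`. -/
def ManyTraces (s : X ⟶ Spec (CommRingCat.of ℂ)) {L : Type} [Field L] [Algebra (FF s) L]
    (R : Aff X → AddSubgroup L) : Prop :=
  ∃ G : Subring (FF s), (∀ g ∈ G, IsTrace s R g) ∧
    ∀ a : FF s, ∃ b ∈ G, ∃ c ∈ G, c ≠ 0 ∧ a * c = b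

/-- `r` is a global section of `R`. -/
def IsGlobal {L : Type} [Field L] (R : Aff X → AddSubgroup L) (r : L) : Prop :=
  ∀ V : Aff X, r ∈ R V

/-- No nonzero `ℂ`-derivation of `L` kills all global sections of `R` (that is, `L` is algebraic
over the field generated by the global sections). -/
def FullTrdeg {L : Type} [Field L] [Algebra ℂ L] (R : Aff X → AddSubgroup L) : Prop :=
  ∀ v : Module.End ℂ L, IsDer v → (∀ r : L, IsGlobal R r → v r = 0) → v = 0

end Pool.Agent.Helper15.DAK
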