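import Pool.Agent.Helper15.DAK.Stmts

open AlgebraicGeometry CategoryTheory TopologicalSpace Opposite

namespace Pool.Agent.Helper15.DAK

open Pool.Agent.Helper15.DAF

namespace SO

/-- A module structure on a stable subgroup. -/
noncomputable def modOf {A L : Type} [Ring A] [AddCommGroup L] [Module ℂ L]
    (ψ : A →+* Module.End ℂ L) (N : AddSubgroup L) (h : ∀ a, ∀ r ∈ N, ψ a r ∈ N) : Module A N where
  smul a r := ⟨ψ a r.1, h a r.1 r.2⟩
  one_smul r := Subtype.ext (by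
    change ψ 1 r.1 = r.1
    rw [map_one]; rfl)
  mul_smul a b r := Subtype.ext (by
    change ψ (a * b) r.1 = ψ a (ψ b r.1)
    rw [map_mul]; rfl)
  smul_zero a := Subtype.ext (by
    change ψ a 0 = 0
    exact map_zero _)
  smul_add a r r' := Subtype.ext (by
    change ψ a (r.1 + r'.1) = ψ a r.1 + ψ a r'.1
    exact map_add _ _ _)
  add_smul a b r := Subtype.ext (by
    change ψ (a + b) r.1 = ψ a r.1 + ψ b r.1
    rw [map_add]; rfl)
  zero_smul r := Subtype.ext (by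
    change ψ 0 r.1 = 0
    rw [map_zero]; rfl)

variable {X : Scheme.{0}} [IsIntegral X] (s : X ⟶ Spec (CommRingCat.of ℂ))

theorem dop_le (V : Aff X) {P : Module.End ℂ (FF s)} (hP : P ∈ Dop (O s V)) : P ∈ DK (FF s) := by
  have h : Dop (O s V) ≤ DK (FF s) := by
    refine Algebra.adjoin_mono ?_
    rintro P (⟨b, _, rfl⟩ | hd)
    · exact Or.inl ⟨b, rfl⟩
    · exact Or.inr hd.1
  exact h hP

variable {L : Type} [Field L] [Algebra ℂ L]

/-- The operators of `D(V)` on `L`. -/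
noncomputable def psi (Φ : DK (FF s) →ₐ[ℂ] Module.End ℂ L) (V : Aff X) :
    DR s V →+* Module.End ℂ L where
  toFun P := Φ ⟨P.1, dop_le s V P.2⟩
  map_one' := by
    rw [← map_one Φ]; exact congrArg Φ (Subtype.ext rfl)
  map_mul' P Q := by
    rw [← map_mul Φ]; exact congrArg Φ (Subtype.ext rfl)
  map_zero' := by
    rw [← map_zero Φ]; exact congrArg Φ (Subtype.ext rfl)
  map_add' P Q := by
    rw [← map_add Φ]; exact congrArg Φ (Subtype.ext rfl)

theorem psi_apply (Φ : DK (FF s) →ₐ[ℂ] Module.End ℂ L) (V : Aff X) (P : DR s V) :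
    psi s Φ V P = Φ ⟨P.1, dop_le s V P.2⟩ := rfl

variable [Algebra (FF s) L] [IsScalarTower ℂ (FF s) L] [FiniteDimensional (FF s) L]

theorem stab (Φ : DK (FF s) →ₐ[ℂ] Module.End ℂ L)
    (hΦ1 : ∀ (P : DK (FF s)) (a : FF s), Φ P (algebraMap (FF s) L a) =
      algebraMap (FF s) L ((P : Module.End ℂ (FF s)) a))
    (hΦ2 : ∀ (P : DK (FF s)) (a : FF s), (P : Module.End ℂ (FF s)) = mulOp a →
      Φ P = mulOp (algebraMap (FF s) L a))
    (hΦ3 : ∀ P : DK (FF s), IsDer (P : Module.End ℂ (FF s)) → IsDer (Φ P))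
    {R : Aff X → AddSubgroup L} (hR : IsDSub s L R) (V : Aff X) (P : Module.End ℂ (FF s))
    (hP : P ∈ Dop (O s V)) : ∀ r ∈ R V, Φ ⟨P, dop_le s V hP⟩ r ∈ R V := by
  unfold Dop at hP
  induction hP using Algebra.adjoin_induction with
  | mem P hP =>
    intro r hr
    rcases hP with ⟨b, hb, rfl⟩ | hd
    · rw [hΦ2 _ b rfl]
      exact hR.1 V b hb r hr
    · refine hR.2.2.2 V (Φ ⟨P, dop_le s V (Algebra.subset_adjoin (Or.inr hd))⟩)
        ⟨hΦ3 ⟨P, dop_le s V (Algebra.subset_adjoin (Or.inr hd))⟩ hd.1, P, hd, fun a => ?_⟩ r hr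
      rw [hΦ1]
  | algebraMap c =>
    intro r hr
    have h1 : (⟨algebraMap ℂ (Module.End ℂ (FF s)) c, dop_le s V (Subalgebra.algebraMap_mem _ c)⟩ :
        DK (FF s)) = algebraMap ℂ (DK (FF s)) c := Subtype.ext rfl
    rw [h1, AlgHom.commutes]
    have h2 : (algebraMap ℂ (Module.End ℂ L) c) r = algebraMap (FF s) L
        (algebraMap ℂ (FF s) c) * r := by
      rw [← IsScalarTower.algebraMap_apply, Module.algebraMap_end_apply, Algebra.smul_def]
    rw [h2]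
    exact hR.1 V _ ((O s V).algebraMap_mem c) r hr
  | add P Q hP hQ h1 h2 =>
    intro r hr
    have h3 : (⟨P + Q, dop_le s V ((Dop (O s V)).add_mem hP hQ)⟩ : DK (FF s)) =
        ⟨P, dop_le s V hP⟩ + ⟨Q, dop_le s V hQ⟩ := Subtype.ext rfl
    rw [h3, map_add]
    exact (R V).add_mem (h1 r hr) (h2 r hr)
  | mul P Q hP hQ h1 h2 =>
    intro r hr
    have h3 : (⟨P * Q, dop_le s V ((Dop (O s V)).mul_mem hP hQ)⟩ : DK (FF s)) =
        ⟨P, dop_le s V hP⟩ * ⟨Q, dop_le s V hQ⟩ := Subtype.ext rfl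
    rw [h3, map_mul]
    exact h1 _ (h2 r hr)

/-- The sections of trace zero. -/
noncomputable def Nn (R : Aff X → AddSubgroup L) (V : Aff X) : AddSubgroup L where
  carrier := {r | r ∈ R V ∧ Algebra.trace (FF s) L r = 0}
  zero_mem' := ⟨(R V).zero_mem, map_zero _⟩
  add_mem' := fun {a b} ha hb => ⟨(R V).add_mem ha.1 hb.1, by rw [map_add, ha.2, hb.2, add_zero]⟩
  neg_mem' := fun {a} ha => ⟨(R V).neg_mem ha.1, by rw [map_neg, ha.2, neg_zero]⟩

theorem mem_Nn {R : Aff X → AddSubgroup L} {V : Aff X} {r : L} :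
    r ∈ Nn s R V ↔ r ∈ R V ∧ Algebra.trace (FF s) L r = 0 := Iff.rfl

theorem stabN (hTRP : ST_TRP) (Φ : DK (FF s) →ₐ[ℂ] Module.End ℂ L)
    (hΦ1 : ∀ (P : DK (FF s)) (a : FF s), Φ P (algebraMap (FF s) L a) =
      algebraMap (FF s) L ((P : Module.End ℂ (FF s)) a))
    (hΦ2 : ∀ (P : DK (FF s)) (a : FF s), (P : Module.End ℂ (FF s)) = mulOp a →
      Φ P = mulOp (algebraMap (FF s) L a))
    (hΦ3 : ∀ P : DK (FF s), IsDer (P : Module.End ℂ (FF s)) → IsDer (Φ P))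
    {R : Aff X → AddSubgroup L} (hR : IsDSub s L R) (V : Aff X) (P : DR s V) :
    ∀ r ∈ Nn s R V, psi s Φ V P r ∈ Nn s R V := by
  intro r hr
  rw [psi_apply]
  refine ⟨stab s Φ hΦ1 hΦ2 hΦ3 hR V P.1 P.2 r hr.1, ?_⟩
  rw [hTRP (FF s) L Φ hΦ1 hΦ2 hΦ3, hr.2, map_zero]

/-- The `D`-module of sections of trace zero. -/
noncomputable def preN (hTRP : ST_TRP) (Φ : DK (FF s) →ₐ[ℂ] Module.End ℂ L)
    (hΦ1 : ∀ (P : DK (FF s)) (a : FF s), Φ P (algebraMap (FF s) L a) =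
      algebraMap (FF s) L ((P : Module.End ℂ (FF s)) a))
    (hΦ2 : ∀ (P : DK (FF s)) (a : FF s), (P : Module.End ℂ (FF s)) = mulOp a →
      Φ P = mulOp (algebraMap (FF s) L a))
    (hΦ3 : ∀ P : DK (FF s), IsDer (P : Module.End ℂ (FF s)) → IsDer (Φ P))
    (R : Aff X → AddSubgroup L) (hR : IsDSub s L R) : PreD s where
  M V := Nn s R V
  grp V := inferInstance
  mod V := modOf (psi s Φ V) (Nn s R V) (stabN s hTRP Φ hΦ1 hΦ2 hΦ3 hR V)
  res V W h := fun m => ⟨m.1, hR.2.1 V W h m.2.1, m.2.2⟩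

theorem isQD_preN (hTRP : ST_TRP) (Φ : DK (FF s) →ₐ[ℂ] Module.End ℂ L)
    (hΦ1 : ∀ (P : DK (FF s)) (a : FF s), Φ P (algebraMap (FF s) L a) =
      algebraMap (FF s) L ((P : Module.End ℂ (FF s)) a))
    (hΦ2 : ∀ (P : DK (FF s)) (a : FF s), (P : Module.End ℂ (FF s)) = mulOp a →
      Φ P = mulOp (algebraMap (FF s) L a))
    (hΦ3 : ∀ P : DK (FF s), IsDer (P : Module.End ℂ (FF s)) → IsDer (Φ P))
    (R : Aff X → AddSubgroup L) (hR : IsDSub s L R) :
    IsQD (preN s hTRP Φ hΦ1 hΦ2 hΦ3 R hR) := by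
  refine ⟨?_, ?_, ?_, ?_, ?_, ?_⟩
  · intro V W h m m'
    exact Subtype.ext rfl
  · intro V m
    exact Subtype.ext rfl
  · intro V W Z h h' m
    exact Subtype.ext rfl
  · intro V W h P Q hPQ m
    have h1 : psi s Φ V P = psi s Φ W Q := by
      rw [psi_apply, psi_apply]
      exact congrArg Φ (Subtype.ext hPQ)
    apply Subtype.ext
    change psi s Φ V P m.1 = psi s Φ W Q m.1
    rw [h1]
  · intro V W h P hP m hm
    have h1 : m.1 = 0 := congrArg Subtype.val hm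
    refine ⟨0, ?_⟩
    apply Subtype.ext
    change psi s Φ V (P ^ 0) m.1 = 0
    rw [h1, map_zero]
  · intro V W h P hP m
    obtain ⟨f, hf, hPf⟩ := hP
    obtain ⟨n, hn⟩ := hR.2.2.1 V W (evR s V f) ⟨f, hf, rfl⟩ m.1 m.2.1
    have h1 : psi s Φ W P = mulOp (algebraMap (FF s) L (evR s V f)) := by
      rw [psi_apply]
      exact hΦ2 _ _ hPf
    have h2 : ∀ k : ℕ, ∀ r : L, (mulOp (algebraMap (FF s) L (evR s V f)) : Module.End ℂ L) ^ k • r =
        algebraMap (FF s) L (evR s V f) ^ k * r := by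
      intro k
      induction k with
      | zero => intro r; simp
      | succ k ih =>
        intro r
        rw [pow_succ, mul_smul, ih, pow_succ, mul_assoc]
        rfl
    have h3 : Algebra.trace (FF s) L (algebraMap (FF s) L (evR s V f) ^ n * m.1) = 0 := by
      rw [← map_pow, ← Algebra.smul_def, map_smul, m.2.2, smul_zero]
    refine ⟨n, ⟨_, hn, h3⟩, ?_⟩
    apply Subtype.ext
    change algebraMap (FF s) L (evR s V f) ^ n * m.1 = psi s Φ W (P ^ n) m.1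
    rw [map_pow, h1]
    exact (h2 n m.1).symm

/-- Gluing for `R`. -/
theorem glueR (hSB : ST_SBASIC) {R : Aff X → AddSubgroup L} (hR : IsDSub s L R) (r : L)
    (h : ∀ x : X, ∃ W : Aff X, x ∈ W.U ∧ r ∈ R W) : IsGlobal R r := by
  intro V
  let I : Ideal Γ(X, V.U) :=
    { carrier := {a | algebraMap (FF s) L (ev s V a) * r ∈ R V}
      add_mem' := by
        intro a b ha hb
        change algebraMap (FF s) L (ev s V (a + b)) * r ∈ R V
        rw [map_add, map_add, add_mul]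
        exact (R V).add_mem ha hb
      zero_mem' := by
        change algebraMap (FF s) L (ev s V 0) * r ∈ R V
        rw [map_zero, map_zero, zero_mul]
        exact (R V).zero_mem
      smul_mem' := by
        intro c a ha
        change algebraMap (FF s) L (ev s V (c * a)) * r ∈ R V
        rw [map_mul, map_mul, mul_assoc]
        exact hR.1 V _ ⟨c, rfl⟩ _ ha }
  have h1 : Ideal.span (I : Set Γ(X, V.U)) = ⊤ := by
    rw [← V.aff.self_le_iSup_basicOpen_iff]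
    intro x hx
    obtain ⟨W, hxW, hW⟩ := h x
    obtain ⟨f, Z, hZ, hxZ, hZW⟩ := hSB X V W.U x hx hxW
    have h2 : r ∈ R Z := hR.2.1 W Z hZW hW
    obtain ⟨N, hN⟩ := hR.2.2.1 V Z (ev s V f) ⟨f, hZ, rfl⟩ r h2
    have h3 : f ^ (N + 1) ∈ I := by
      change algebraMap (FF s) L (ev s V (f ^ (N + 1))) * r ∈ R V
      rw [pow_succ', map_mul, map_mul, map_pow, map_pow, mul_assoc]
      exact hR.1 V _ ⟨f, rfl⟩ _ hN
    rw [Opens.mem_iSup]
    refine ⟨⟨f ^ (N + 1), h3⟩, ?_⟩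
    change x ∈ X.basicOpen (f ^ (N + 1))
    rw [X.basicOpen_pow f (Nat.succ_pos N), ← hZ]
    exact hxZ
  rw [Ideal.span_eq] at h1
  have h4 : (1 : Γ(X, V.U)) ∈ I := by rw [h1]; trivial
  have h5 : algebraMap (FF s) L (ev s V 1) * r ∈ R V := h4
  rw [map_one, map_one, one_mul] at h5
  exact h5

end SO

theorem st_ONTO (hPHI : ST_PHI) (hTRP : ST_TRP) (hSB : ST_SBASIC) : ST_ONTO := by
  intro X _ _ s _ hD L _ _ _ _ _ R hR a ha
  obtain ⟨Φ, hΦ1, hΦ2, hΦ3⟩ := hPHI (FF s) L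
  have hE : ∀ z : X, ∃ W : Aff X, z ∈ W.U := by
    intro z
    obtain ⟨_, ⟨A, hA, rfl⟩, hzA, -⟩ :=
      X.isBasis_affineOpens.exists_subset_of_mem_open (Set.mem_univ z) isOpen_univ
    exact ⟨⟨A, hA, ⟨⟨z, hzA⟩⟩⟩, hzA⟩
  choose W hzW using hE
  obtain ⟨T, hT⟩ := isCompact_univ.elim_finite_subcover (fun z : X => ((W z).U : Set X))
    (fun z => (W z).U.isOpen) (fun z _ => Set.mem_iUnion.2 ⟨z, hzW z⟩)
  have hcov : ∀ z : X, ∃ i : T, z ∈ (W i.1).U := by
    intro z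
    obtain ⟨i, hi⟩ := Set.mem_iUnion.1 (hT (Set.mem_univ z))
    obtain ⟨hiT, hzi⟩ := Set.mem_iUnion.1 hi
    exact ⟨⟨i, hiT⟩, hzi⟩
  choose r hr hra using ha
  have hp : ∀ (i j : T) (Z : Aff X), Z.U ≤ (W i.1).U → Z.U ≤ (W j.1).U →
      r (W i.1) - r (W j.1) ∈ SO.Nn s R Z := by
    intro i j Z hi hj
    refine ⟨(R Z).sub_mem (hR.2.1 _ _ hi (hr _)) (hR.2.1 _ _ hj (hr _)), ?_⟩
    rw [map_sub, hra, hra, sub_self]
  obtain ⟨m, hm⟩ := hD (SO.preN s hTRP Φ hΦ1 hΦ2 hΦ3 R hR) (SO.isQD_preN s hTRP Φ hΦ1 hΦ2 hΦ3 R hR)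
    T inferInstance (fun i => W i.1) hcov
    (fun i j Z hi hj => ⟨r (W i.1) - r (W j.1), hp i j Z hi hj⟩)
    (fun i j Z Z' hi hj h => Subtype.ext rfl)
    (fun i j k Z hi hj hk => Subtype.ext (sub_add_sub_cancel _ _ _))
  have hglue : ∀ i j : T, r (W i.1) + (m i).1 = r (W j.1) + (m j).1 := by
    intro i j
    have hmeet : genericPoint X ∈ (W i.1).U ⊓ (W j.1).U := by
      constructor
      · exact ((genericPoint_spec X).mem_open_set_iff (W i.1).U.isOpen).mpr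
          (by obtain ⟨a⟩ := (W i.1).ne; exact ⟨a.1, trivial, a.2⟩)
      · exact ((genericPoint_spec X).mem_open_set_iff (W j.1).U.isOpen).mpr
          (by obtain ⟨a⟩ := (W j.1).ne; exact ⟨a.1, trivial, a.2⟩)
    obtain ⟨f, Z, hZ, hz, hZW⟩ := hSB X (W i.1) ((W i.1).U ⊓ (W j.1).U) (genericPoint X)
      hmeet.1 hmeet
    have hi : Z.U ≤ (W i.1).U := hZW.trans inf_le_left
    have hj : Z.U ≤ (W j.1).U := hZW.trans inf_le_right
    have h' : r (W i.1) - r (W j.1) = (m j).1 - (m i).1 := congrArg Subtype.val (hm i j Z hi hj)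
    rw [sub_eq_sub_iff_add_eq_add] at h'
    rw [h', add_comm]
  obtain ⟨i0, -⟩ := hcov (genericPoint X)
  refine ⟨r (W i0.1) + (m i0).1, ?_, ?_⟩
  · refine SO.glueR s hSB hR _ fun z => ?_
    obtain ⟨i, hi⟩ := hcov z
    refine ⟨W i.1, hi, ?_⟩
    rw [hglue i0 i]
    exact (R _).add_mem (hr _) (m i).2.1
  · rw [map_add, hra, (m i0).2.2, add_zero]

end Pool.Agent.Helper15.DAK
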