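import Pool.Agent.Helper15.DAK.Defs
import Pool.Agent.Helper15.DAF.Bridge
import Pool.Agent.Helper15.DAF.Stmts

/-!
# Rows of the project DAK (MP_c8969c_ag, trace theorem)
-/

open AlgebraicGeometry CategoryTheory TopologicalSpace Opposite

namespace Pool.Agent.Helper15.DAK

open Pool.Agent.Helper15.DAF

/-- All operators on the field `F` generated by multiplications and derivations. -/
noncomputable def DK (F : Type) [Field F] [Algebra ℂ F] : Subalgebra ℂ (Module.End ℂ F) :=
  Algebra.adjoin ℂ ({P | ∃ a : F, P = mulOp a} ∪ {d | IsDer d})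

/-- Operators of order at most `m`. -/
def Ord {F : Type} [Field F] [Algebra ℂ F] : ℕ → Module.End ℂ F → Prop
  | 0, P => ∀ a : F, P * mulOp a - mulOp a * P = 0
  | m + 1, P => ∀ a : F, Ord m (P * mulOp a - mulOp a * P)

/-- `y, t` are coordinates of the field `K`. -/
def IsFCoord {K : Type} [Field K] [Algebra ℂ K] (n : ℕ) (t : Fin n → Module.End ℂ K)
    (y : Fin n → K) : Prop :=
  (∀ i, IsDer (t i)) ∧ (∀ i j, t i (y j) = if i = j then 1 else 0) ∧
    ∀ d : Module.End ℂ K, IsDer d → d = ∑ i, mulOp (d (y i)) * t i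

/-- ORD: calculus of orders. -/
def ST_ORD : Prop := ∀ (F : Type) [Field F] [Algebra ℂ F],
  (∀ a : F, Ord 0 (mulOp a)) ∧ (∀ d : Module.End ℂ F, IsDer d → Ord 1 d) ∧
  (∀ (m k : ℕ) (P : Module.End ℂ F), m ≤ k → Ord m P → Ord k P) ∧
  (∀ (m : ℕ) (P Q : Module.End ℂ F), Ord m P → Ord m Q → Ord m (P + Q)) ∧
  (∀ (m : ℕ) (c : ℂ) (P : Module.End ℂ F), Ord m P → Ord m (c • P)) ∧
  (∀ (m k : ℕ) (P Q : Module.End ℂ F), Ord m P → Ord k Q → Ord (m + k) (P * Q)) ∧
  (∀ P ∈ DK F, ∃ m, Ord m P)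

/-- UNIQ: an operator of finite order on `L` which vanishes on `K` is zero (induction on the
order: commutators with `K`, then commutators with `θ ∈ L` and the minimal polynomial of `θ`). -/
def ST_UNIQ : Prop := ∀ (K L : Type) [Field K] [Field L] [Algebra ℂ K] [Algebra ℂ L] [Algebra K L]
  [IsScalarTower ℂ K L] [FiniteDimensional K L] (m : ℕ) (P : Module.End ℂ L), Ord m P →
  (∀ a : K, P (algebraMap K L a) = 0) → P = 0

/-- LIFTD: derivations of `K` extend to `L`. -/
def ST_LIFTD : Prop := ∀ (K L : Type) [Field K] [Field L] [Algebra ℂ K] [Algebra ℂ L] [Algebra K L]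
  [IsScalarTower ℂ K L] [FiniteDimensional K L] (d : Module.End ℂ K), IsDer d →
  ∃ D : Module.End ℂ L, IsDer D ∧ ∀ a : K, D (algebraMap K L a) = algebraMap K L (d a)

/-- PHI: operators of `DK K` extend to `L` (from ORD, UNIQ, LIFTD; `Φ P` is the unique operator of
finite order on `L` extending `P`). -/
def ST_PHI : Prop := ∀ (K L : Type) [Field K] [Field L] [Algebra ℂ K] [Algebra ℂ L] [Algebra K L]
  [IsScalarTower ℂ K L] [FiniteDimensional K L],
  ∃ Φ : DK K →ₐ[ℂ] Module.End ℂ L,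
    (∀ (P : DK K) (a : K), Φ P (algebraMap K L a) = algebraMap K L ((P : Module.End ℂ K) a)) ∧
    (∀ (P : DK K) (a : K), (P : Module.End ℂ K) = mulOp a → Φ P = mulOp (algebraMap K L a)) ∧
    (∀ P : DK K, IsDer (P : Module.End ℂ K) → IsDer (Φ P))

/-- TRD: the trace commutes with derivations. -/
def ST_TRD : Prop := ∀ (K L : Type) [Field K] [Field L] [Algebra ℂ K] [Algebra ℂ L] [Algebra K L]
  [IsScalarTower ℂ K L] [FiniteDimensional K L] (d : Module.End ℂ K) (D : Module.End ℂ L),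
  IsDer d → IsDer D → (∀ a : K, D (algebraMap K L a) = algebraMap K L (d a)) →
  ∀ f : L, Algebra.trace K L (D f) = d (Algebra.trace K L f)

/-- TRP: the trace is linear over `DK K` (from TRD; induction over the adjoined algebra). -/
def ST_TRP : Prop := ∀ (K L : Type) [Field K] [Field L] [Algebra ℂ K] [Algebra ℂ L] [Algebra K L]
  [IsScalarTower ℂ K L] [FiniteDimensional K L] (Φ : DK K →ₐ[ℂ] Module.End ℂ L),
  (∀ (P : DK K) (a : K), Φ P (algebraMap K L a) = algebraMap K L ((P : Module.End ℂ K) a)) →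
  (∀ (P : DK K) (a : K), (P : Module.End ℂ K) = mulOp a → Φ P = mulOp (algebraMap K L a)) →
  (∀ P : DK K, IsDer (P : Module.End ℂ K) → IsDer (Φ P)) →
  ∀ (P : DK K) (f : L), Algebra.trace K L (Φ P f) = (P : Module.End ℂ K) (Algebra.trace K L f)

/-- COORDL: lifted coordinates are coordinates of `L` (from UNIQ or directly). -/
def ST_COORDL : Prop := ∀ (K L : Type) [Field K] [Field L] [Algebra ℂ K] [Algebra ℂ L]
  [Algebra K L] [IsScalarTower ℂ K L] [FiniteDimensional K L] (n : ℕ)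
  (t : Fin n → Module.End ℂ K) (y : Fin n → K), IsFCoord n t y →
  ∀ T : Fin n → Module.End ℂ L, (∀ i, IsDer (T i)) →
  (∀ i (a : K), T i (algebraMap K L a) = algebraMap K L (t i a)) →
  (∀ i j, T i * T j = T j * T i) ∧
  ∀ v : Module.End ℂ L, IsDer v → v = ∑ i, mulOp (v (algebraMap K L (y i))) * T i

/-- SPAN: on the kernel of `v` with `v = ∑ a_i T_i`, `a_(i0) ≠ 0`, a monomial of degree at most `m`
in the commuting derivations `T_i` is an `L`-combination of the monomials without `T_(i0)`, of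
degree at most `m`. -/
def ST_SPAN : Prop := ∀ (L : Type) [Field L] [Algebra ℂ L] (n : ℕ) (T : Fin n → Module.End ℂ L)
  (a : Fin n → L) (i0 : Fin n), (∀ i, IsDer (T i)) → (∀ i j, T i * T j = T j * T i) → a i0 ≠ 0 →
  ∀ (m : ℕ) (α : Fin n → ℕ), ∑ i, α i ≤ m →
  ∃ c : (Fin n → ℕ) → L, ∀ f : L, (∑ i, a i * T i f = 0) →
    tmon T α f = ∑ β ∈ (Fintype.piFinset fun _ : Fin n => Finset.range (m + 1)).filter
      (fun β => β i0 = 0), c β * tmon T β f

/-- LIND: the monomials in coordinates are left linearly independent over `K`. -/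
def ST_LIND : Prop := ∀ (K : Type) [Field K] [Algebra ℂ K] (n : ℕ) (t : Fin n → Module.End ℂ K)
  (y : Fin n → K), IsFCoord n t y → ∀ (A : Finset (Fin n → ℕ)) (c : (Fin n → ℕ) → K),
  ∑ α ∈ A, mulOp (c α) * tmon t α = 0 → ∀ α ∈ A, c α = 0

/-- ALG: a nonzero operator which kills the traces of the kernel of a nonzero derivation
(from LIFTD, TRD, COORDL, SPAN, LIND and linear algebra: `(m+1)^n > d · (n m + 1)^(n-1)`). -/
def ST_ALG : Prop := ∀ (K L : Type) [Field K] [Field L] [Algebra ℂ K] [Algebra ℂ L] [Algebra K L]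
  [IsScalarTower ℂ K L] [FiniteDimensional K L] (n : ℕ) (t : Fin n → Module.End ℂ K)
  (y : Fin n → K), IsFCoord n t y → ∀ v : Module.End ℂ L, IsDer v → v ≠ 0 →
  ∃ P ∈ DK K, P ≠ 0 ∧ ∀ f : L, v f = 0 → P (Algebra.trace K L f) = 0

/-- KILL: an operator which kills a subring with fraction field `K` is zero (from ORD). -/
def ST_KILL : Prop := ∀ (K : Type) [Field K] [Algebra ℂ K] (G : Subring K),
  (∀ a : K, ∃ b ∈ G, ∃ c ∈ G, c ≠ 0 ∧ a * c = b) →
  ∀ P ∈ DK K, (∀ g ∈ G, P g = 0) → P = 0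

/-- COORDK: coordinates of the function field (from DAF's SMOOTH, SFG; `K = Frac O(V)`). -/
def ST_COORDK : Prop := ∀ (X : Scheme.{0}) [IsIntegral X] (s : X ⟶ Spec (CommRingCat.of ℂ))
  [LocallyOfFiniteType s] [Smooth s],
  ∃ (n : ℕ) (t : Fin n → Module.End ℂ (FF s)) (y : Fin n → FF s), IsFCoord n t y

/-- ONTO: every global section of the trace sheaf is the trace of a global section. -/
def ST_ONTO : Prop := ∀ (X : Scheme.{0}) [IsIntegral X] [CompactSpace X]
  (s : X ⟶ Spec (CommRingCat.of ℂ)) [LocallyOfFiniteType s], HalfDAffine s →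
  ∀ (L : Type) [Field L] [Algebra ℂ L] [Algebra (FF s) L] [IsScalarTower ℂ (FF s) L]
  [FiniteDimensional (FF s) L] (R : Aff X → AddSubgroup L), IsDSub s L R →
  ∀ a : FF s, IsTrace s R a → ∃ r : L, IsGlobal R r ∧ Algebra.trace (FF s) L r = a

end Pool.Agent.Helper15.DAK
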